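import Mathlib
import Pool.Agent.W332.SL7.Stmt

set_option autoImplicit false

namespace Pool.Agent.Results.MP_fc6b1e_nt.CoordinateSpaces

open NumberField Module Pool.Agent.W289.SL Pool.Agent.W332.SL7

/-- Let `K` be a quadratic extension of a number field `F` (e.g. a CM field over its totally real
subfield), `S` a CM type of `K` (embeddings into `ℂ_p`), `H/K` a finite extension, `χ` a character
of `Gal(H/K)` which separates `S`, and `x_1, …, x_r` linearly independent elements of the `χ`-part
of `ℂ_p ⊗ 𝓞_H^×` killed by the regulator map `log_{S,p}`. Let `A` be a finite dimensional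
`ℚ̄`-subspace of `ℂ_p` which contains coordinates of all `x_i`, and `N = [F:ℚ] r`. Then
* `N s ≤ (e + s)(e + s - 1)` whenever `B` is a finite dimensional `ℚ̄`-subspace of `ℂ_p`,
  `s ≤ dim B` and `dim (B A) ≤ dim B + e`;
* `N ≤ m (m - 1)` where `m = dim A`;
* `N ≤ 4 D - 2` if `dim A^k ≤ k D + c` for all `k`;
* `N ≤ (4 D)^n - 2^n` if `A` is contained in the span of the monomials of degree at most `D` in
  each of `n` given elements of `ℂ_p`. -/
theorem result (p : ℕ) [Fact p.Prime] (F K H : Type) [Field F] [NumberField F]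
    [Field K] [NumberField K] [Algebra F K] (hFK : finrank F K = 2)
    [Field H] [NumberField H] [Algebra K H]
    (χ : (H ≃ₐ[K] H) →* ℂ_[p]ˣ) (S : Set (K →+* ℂ_[p])) (hS : IsCMType p F K S)
    (hsep : Separates p K H S χ) (L : ℂ_[p] → ℂ_[p]) (hL : IsIwasawaLog p L)
    (r : ℕ) (x : Fin r → UM p H) (hx0 : Indep x)
    (hx : ∀ i, InKernel S χ hL (x i)) (A : QSub ℂ_[p]) (hAf : FinQ A) (hA : ∀ i, Coords A (x i)) :
    Bounds A (finrank ℚ F * r) :=
  coordinate_spaces' p F K H hFK χ S hS hsep L hL r x hx0 hx A hAf hA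

end Pool.Agent.Results.MP_fc6b1e_nt.CoordinateSpaces
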