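import Mathlib
import Pool.Agent.W332.SL6.Main

set_option autoImplicit false

namespace Pool.Agent.Results.MP_fc6b1e_nt.TwoOfFourTypes

open NumberField Pool.Agent.W289.SL

/-- Let `F` be a real quadratic field, `K` a totally imaginary quadratic extension of `F`, `p` any
prime number, `H/K` a finite Galois extension which is not a CM field, and `χ ≠ 1` an injective
character of `Gal(H/K)` with values in `ℂ_pˣ`. If the CM type `S'` of `K` is neither `S` nor the
complement of `S`, then the `Σ`-Leopoldt statement for `χ` holds for `S` or it holds for `S'`. -/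
theorem result (p : ℕ) [Fact p.Prime] (F K H : Type) [Field F] [NumberField F] [IsTotallyReal F]
    [Field K] [NumberField K] [IsTotallyComplex K] [Algebra F K]
    (hF : Module.finrank ℚ F = 2) (hFK : Module.finrank F K = 2)
    [Field H] [NumberField H] [Algebra K H] [IsGalois K H] (hCM : ¬ IsCMField H)
    (χ : (H ≃ₐ[K] H) →* ℂ_[p]ˣ) (hχ : Function.Injective χ) (hχ1 : χ ≠ 1)
    (S S' : Set (K →+* ℂ_[p])) (hS : IsCMType p F K S) (hS' : IsCMType p F K S')
    (hne : S' ≠ S) (hne' : S' ≠ Sᶜ) :
    SigmaLeopoldt p K H S χ ∨ SigmaLeopoldt p K H S' χ :=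
  Pool.Agent.W332.SL6.two_types F K H hF hFK hCM χ hχ hχ1 S S' hS hS' hne hne'

end Pool.Agent.Results.MP_fc6b1e_nt.TwoOfFourTypes
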